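import Pool.Agent.Q210.SK.Tree

set_option autoImplicit false

open Cardinal Ordinal Set Order

universe u v

namespace Q210.SK

variable {κ : Cardinal.{u}} {V : Type u} {𝓕 : Set (κ.ord.ToType → V)}

theorem FNode.isKTree (hne : 𝓕.Nonempty)
    (hsmall : ∀ β : κ.ord.ToType, #{g | ∃ F ∈ 𝓕, g = restr F β} < κ) :
    IsKTree κ (FNode 𝓕) where
  isTree := FNode.isTree
  level_nonempty := by
    intro α hα
    obtain ⟨F, hF⟩ := hne
    obtain ⟨β, rfl⟩ := exists_ordOf hα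
    exact ⟨FNode.mk' F hF β, FNode.mem_level _⟩
  level_empty := by
    rw [Set.eq_empty_iff_forall_notMem]
    intro x hx
    have h := level_unique hx (FNode.mem_level x)
    exact absurd (ordOf_lt x.1.1) (by rw [← h]; exact lt_irrefl _)
  level_small := by
    intro α hα
    obtain ⟨β, rfl⟩ := exists_ordOf hα
    refine lt_of_le_of_lt ?_ (hsmall β)
    have hlev : ∀ x ∈ Level (FNode 𝓕) (ordOf β), x.1.1 = β := by
      intro x hx
      exact ordOf_inj (level_unique (FNode.mem_level x) hx)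
    refine Cardinal.mk_le_of_injective
      (f := fun x : Level (FNode 𝓕) (ordOf β) =>
        (⟨x.1.1.2, by
          obtain ⟨F, hF, h⟩ := x.1.2
          exact ⟨F, hF, by rw [h, hlev _ x.2]⟩⟩ : {g | ∃ F ∈ 𝓕, g = restr F β})) ?_
    intro x y hxy
    have h2 : x.1.1.2 = y.1.1.2 := congrArg Subtype.val hxy
    apply Subtype.ext
    apply Subtype.ext
    exact Prod.ext (by rw [hlev _ x.2, hlev _ y.2]) h2

/-- The functions all of whose proper initial segments are initial segments of functions in the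
family. -/
def Closure (𝓕 : Set (κ.ord.ToType → V)) : Set (κ.ord.ToType → V) :=
  {G | ∀ β, ∃ F ∈ 𝓕, ∀ γ < β, F γ = G γ}

theorem exists_node (b : Branches κ (FNode 𝓕)) (β : κ.ord.ToType) : ∃ x ∈ b.1, x.1.1 = β := by
  obtain ⟨x, hx, hx2⟩ := b.2.2.2 (ordOf β) (ordOf_lt β)
  exact ⟨x, hx, ordOf_inj (level_unique (FNode.mem_level x) hx2)⟩

theorem exists_branchFun (hκ : ℵ₀ ≤ κ) (b : Branches κ (FNode 𝓕)) :
    ∃ G : κ.ord.ToType → V, ∀ x ∈ b.1, x.1.2 = restr G x.1.1 := by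
  have := Cardinal.noMaxOrder hκ
  have h1 : ∀ γ : κ.ord.ToType, ∃ v : V, ∃ x ∈ b.1, γ < x.1.1 ∧ x.1.2 γ = some v := by
    intro γ
    obtain ⟨β, hβ⟩ := exists_gt γ
    obtain ⟨x, hx, rfl⟩ := exists_node b β
    obtain ⟨F, hF, h⟩ := x.2
    exact ⟨F γ, x, hx, hβ, by rw [h, restr_apply F hβ]⟩
  choose G y hy hγ hval using h1
  refine ⟨G, fun x hx => ?_⟩
  obtain ⟨F, hF, h⟩ := x.2
  rw [h, restr_eq_iff]
  intro γ hγx
  have h2 : x.1.2 γ = (y γ).1.2 γ := by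
    rcases b.2.1.total hx (hy γ) with h3 | h3
    · exact h3.2 γ hγx
    · exact (h3.2 γ (hγ γ)).symm
  rw [hval, h, restr_apply F hγx] at h2
  exact Option.some.inj h2

/-- The function given by a cofinal branch. -/
noncomputable def branchFun (hκ : ℵ₀ ≤ κ) (b : Branches κ (FNode 𝓕)) : κ.ord.ToType → V :=
  (exists_branchFun hκ b).choose

theorem branchFun_spec (hκ : ℵ₀ ≤ κ) (b : Branches κ (FNode 𝓕)) {x : FNode 𝓕} (hx : x ∈ b.1) :
    x.1.2 = restr (branchFun hκ b) x.1.1 :=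
  (exists_branchFun hκ b).choose_spec x hx

theorem branchFun_mem (hκ : ℵ₀ ≤ κ) (b : Branches κ (FNode 𝓕)) :
    branchFun hκ b ∈ Closure 𝓕 := by
  intro β
  obtain ⟨x, hx, rfl⟩ := exists_node b β
  obtain ⟨F, hF, h⟩ := x.2
  refine ⟨F, hF, ?_⟩
  rw [← restr_eq_iff, ← h, branchFun_spec hκ b hx]

/-- The branch given by a member of the family. -/
noncomputable def branchOf (F : κ.ord.ToType → V) (hF : F ∈ 𝓕) : Branches κ (FNode 𝓕) :=
  ⟨{x | ∃ β, x = FNode.mk' F hF β}, by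
    refine ⟨?_, ?_, ?_⟩
    · rintro _ ⟨β, rfl⟩ _ ⟨β', rfl⟩ _
      rcases le_total β β' with h | h
      · exact Or.inl ((FNode.mk'_le_iff hF hF h).2 fun _ _ => rfl)
      · exact Or.inr ((FNode.mk'_le_iff hF hF h).2 fun _ _ => rfl)
    · rintro _ y hy ⟨β, rfl⟩
      exact ⟨y.1.1, FNode.eq_mk' hF hy⟩
    · intro α hα
      obtain ⟨β, rfl⟩ := exists_ordOf hα
      exact ⟨FNode.mk' F hF β, ⟨β, rfl⟩, FNode.mem_level _⟩⟩

theorem branchFun_branchOf (hκ : ℵ₀ ≤ κ) (F : κ.ord.ToType → V) (hF : F ∈ 𝓕) :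
    branchFun hκ (branchOf F hF) = F := by
  have := Cardinal.noMaxOrder hκ
  funext γ
  obtain ⟨β, hβ⟩ := exists_gt γ
  have h := branchFun_spec hκ (branchOf F hF) (x := FNode.mk' F hF β) ⟨β, rfl⟩
  exact ((restr_eq_iff F _ β).1 h γ hβ).symm

/-- The criterion for a strong Kurepa tree. -/
theorem strongKurepa_of (hκ : ℵ₀ ≤ κ) (hne : 𝓕.Nonempty)
    (hsmall : ∀ β : κ.ord.ToType, #{g | ∃ F ∈ 𝓕, g = restr F β} < κ)
    (h : (κ.ord.ToType → V) → Cant κ)
    (hcont : ∀ G ∈ Closure 𝓕, ∀ α : κ.ord.ToType, ∃ β : κ.ord.ToType, ∀ G' ∈ Closure 𝓕,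
      (∀ γ < β, G' γ = G γ) → ∀ ξ < α, h G' ξ = h G ξ)
    (hsurj : ∀ g : Cant κ, ∃ F ∈ 𝓕, h F = g) :
    IsStrongKurepa κ (FNode 𝓕) := by
  have hs : Function.Surjective (fun b : Branches κ (FNode 𝓕) => h (branchFun hκ b)) := by
    intro g
    obtain ⟨F, hF, hg⟩ := hsurj g
    exact ⟨branchOf F hF, by simp only [branchFun_branchOf]; exact hg⟩
  refine ⟨⟨FNode.isKTree hne hsmall, ?_⟩, fun b => h (branchFun hκ b), ?_, hs⟩
  · rw [Order.succ_le_iff]
    calc κ < 2 ^ κ := Cardinal.cantor κ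
      _ = #(Cant κ) := by
          rw [Cardinal.mk_arrow]
          simp
      _ ≤ _ := Cardinal.mk_le_of_surjective hs
  · letI := branchTopology κ (FNode 𝓕)
    refine continuous_generateFrom_iff.2 ?_
    rintro _ ⟨s, α, rfl⟩
    rw [isOpen_iff_forall_mem_open]
    intro b hb
    obtain ⟨β, hβ⟩ := hcont _ (branchFun_mem hκ b) α
    obtain ⟨x, hx, rfl⟩ := exists_node b β
    refine ⟨{b' | x ∈ b'.1}, ?_, TopologicalSpace.isOpen_generateFrom_of_mem ⟨x, rfl⟩, hx⟩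
    intro b' hb' ξ hξ
    show h (branchFun hκ b') ξ = s ξ
    rw [← hb ξ hξ]
    refine hβ _ (branchFun_mem hκ b') ?_ ξ hξ
    rw [← restr_eq_iff, ← branchFun_spec hκ b' hb', branchFun_spec hκ b hx]

end Q210.SK
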