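import Mathlib

/-!
Trees, cofinal branches, Aronszajn trees, strong Kurepa trees, and the principle diamond-plus.
-/

set_option autoImplicit false

open Cardinal Ordinal Set Order

universe u

namespace Q210.SK

/-- A tree: a partial order in which the predecessors of every node are well-ordered. -/
def IsTree (T : Type u) [PartialOrder T] : Prop :=
  ∀ t : T, IsWellOrder (Set.Iio t) (· < ·)

/-- The `α`-th level: the nodes whose set of predecessors has order type `α`. -/
def Level (T : Type u) [PartialOrder T] (α : Ordinal.{u}) : Set T :=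
  {t | Nonempty (Set.Iio t ≃o Set.Iio α)}

/-- A `κ`-tree: a tree of height `κ` (that is, `κ` is least such that the `κ`-th level is empty)
all of whose levels have fewer than `κ` elements. -/
structure IsKTree (κ : Cardinal.{u}) (T : Type u) [PartialOrder T] : Prop where
  isTree : IsTree T
  level_nonempty : ∀ α < κ.ord, (Level T α).Nonempty
  level_empty : Level T κ.ord = ∅
  level_small : ∀ α < κ.ord, #(Level T α) < κ

/-- The set `[T]` of the cofinal branches of the `κ`-tree `T`: the linearly ordered, downward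
closed subsets of `T` which meet every level. -/
def Branches (κ : Cardinal.{u}) (T : Type u) [PartialOrder T] : Set (Set T) :=
  {b | IsChain (· ≤ ·) b ∧ IsLowerSet b ∧ ∀ α < κ.ord, (b ∩ Level T α).Nonempty}

/-- The cone topology on `[T]`. -/
@[reducible] def branchTopology (κ : Cardinal.{u}) (T : Type u) [PartialOrder T] :
    TopologicalSpace (Branches κ T) :=
  TopologicalSpace.generateFrom {U | ∃ t : T, U = {b | t ∈ b.1}}

/-- The functions from `κ` to `2`. -/
abbrev Cant (κ : Cardinal.{u}) : Type u := κ.ord.ToType → Bool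

/-- The cone topology on the functions from `κ` to `2`. -/
@[reducible] def cantTopology (κ : Cardinal.{u}) : TopologicalSpace (Cant κ) :=
  TopologicalSpace.generateFrom
    {U | ∃ (s : Cant κ) (α : κ.ord.ToType), U = {g | ∀ ξ < α, g ξ = s ξ}}

/-- A `κ`-Aronszajn tree. -/
def IsAronszajn (κ : Cardinal.{u}) (T : Type u) [PartialOrder T] : Prop :=
  IsKTree κ T ∧ Branches κ T = ∅

/-- A `κ`-Kurepa tree. -/
def IsKurepa (κ : Cardinal.{u}) (T : Type u) [PartialOrder T] : Prop :=
  IsKTree κ T ∧ Order.succ κ ≤ #(Branches κ T)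

/-- A strong `κ`-Kurepa tree: a `κ`-Kurepa tree `T` with a continuous map of `[T]` onto `2^κ`. -/
def IsStrongKurepa (κ : Cardinal.{u}) (T : Type u) [PartialOrder T] : Prop :=
  IsKurepa κ T ∧ ∃ f : Branches κ T → Cant κ,
    @Continuous _ _ (branchTopology κ T) (cantTopology κ) f ∧ Function.Surjective f

/-- `C` is closed and unbounded in `κ`. -/
def IsClubIn {K : Type u} [LinearOrder K] (C : Set K) : Prop :=
  (∀ α, ∃ β ∈ C, α < β) ∧ ∀ B ⊆ C, B.Nonempty → ∀ α, IsLUB B α → α ∈ C

/-- Diamond-plus at `κ` (for a successor `κ = λ⁺` the bound `|S α| < κ` is the usual one): there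
are `S α`, each a set of fewer than `κ` subsets of `α`, such that for every `X ⊆ κ` there is a
closed unbounded `C ⊆ κ` with `X ∩ α ∈ S α` and `C ∩ α ∈ S α` for every `α ∈ C`. -/
def DiamondPlus (κ : Cardinal.{u}) : Prop :=
  ∃ S : κ.ord.ToType → Set (Set κ.ord.ToType), (∀ α, #(S α) < κ ∧ ∀ Y ∈ S α, Y ⊆ Set.Iio α) ∧
    ∀ X : Set κ.ord.ToType, ∃ C : Set κ.ord.ToType, IsClubIn C ∧
      ∀ α ∈ C, X ∩ Set.Iio α ∈ S α ∧ C ∩ Set.Iio α ∈ S α

end Q210.SK
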