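import Pool.Agent.Q210.SK.Branch

set_option autoImplicit false

open Cardinal Ordinal Set Order

universe u v

namespace Q210.SK

section Construction

variable {κ : Cardinal.{u}} {A : Type u} [PartialOrder A]

theorem exists_least (s : Set κ.ord.ToType) (h : s.Nonempty) : ∃ δ, IsLeast s δ :=
  ⟨wellFounded_lt.min s h, wellFounded_lt.min_mem s h, fun _ hx => wellFounded_lt.min_le hx⟩

open Classical in
/-- The least element of `C` above `γ`. -/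
noncomputable def nx (C : Set κ.ord.ToType) (γ : κ.ord.ToType) : κ.ord.ToType :=
  if h : ∃ δ, IsLeast {δ | δ ∈ C ∧ γ < δ} δ then h.choose else γ

open Classical in
/-- The least element of `C` which is at least `γ`. -/
noncomputable def nx' (C : Set κ.ord.ToType) (γ : κ.ord.ToType) : κ.ord.ToType :=
  if h : ∃ δ, IsLeast {δ | δ ∈ C ∧ γ ≤ δ} δ then h.choose else γ

theorem nx_spec {C : Set κ.ord.ToType} (hC : ∀ α, ∃ β ∈ C, α < β) (γ : κ.ord.ToType) :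
    IsLeast {δ | δ ∈ C ∧ γ < δ} (nx C γ) := by
  have h : ∃ δ, IsLeast {δ | δ ∈ C ∧ γ < δ} δ := by
    obtain ⟨β, hβ, hlt⟩ := hC γ
    exact exists_least _ ⟨β, hβ, hlt⟩
  unfold nx
  rw [dif_pos h]
  exact h.choose_spec

theorem nx'_spec {C : Set κ.ord.ToType} (hC : ∀ α, ∃ β ∈ C, α < β) (γ : κ.ord.ToType) :
    IsLeast {δ | δ ∈ C ∧ γ ≤ δ} (nx' C γ) := by
  have h : ∃ δ, IsLeast {δ | δ ∈ C ∧ γ ≤ δ} δ := by
    obtain ⟨β, hβ, hlt⟩ := hC γ
    exact exists_least _ ⟨β, hβ, hlt.le⟩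
  unfold nx'
  rw [dif_pos h]
  exact h.choose_spec

open Classical in
/-- The predecessor of `t` at level `γ`. -/
noncomputable def res (t : A) (γ : κ.ord.ToType) : A :=
  if h : ∃ s ≤ t, s ∈ Level A (ordOf γ) then h.choose else t

theorem res_spec {t : A} {δ γ : κ.ord.ToType} (ht : t ∈ Level A (ordOf δ)) (h : γ ≤ δ) :
    res t γ ≤ t ∧ res t γ ∈ Level A (ordOf γ) := by
  have h1 : ∃ s ≤ t, s ∈ Level A (ordOf γ) := exists_restr ht (ordOf_le_iff.2 h)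
  unfold res
  rw [dif_pos h1]
  exact h1.choose_spec

theorem res_res (hT : IsTree A) {t : A} {δ γ β : κ.ord.ToType} (ht : t ∈ Level A (ordOf δ))
    (h1 : γ ≤ β) (h2 : β ≤ δ) : res (res t β) γ = res t γ := by
  have h3 := res_spec ht h2
  have h4 := res_spec ht (h1.trans h2)
  have h5 := res_spec h3.2 h1
  exact restr_unique hT (h5.1.trans h3.1) h4.1 h5.2 h4.2

variable (a : κ.ord.ToType → A)

/-- The function coding the pair `(C, X)`. -/
noncomputable def Ffun (C X : Set κ.ord.ToType) :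
    κ.ord.ToType → Prop × Set κ.ord.ToType × A :=
  fun γ => (γ ∈ C, {ξ | ξ ∈ X ∧ γ ∈ C ∧ ξ < γ}, res (a (nx C γ)) γ)

variable (S : κ.ord.ToType → Set (Set κ.ord.ToType))

/-- `C` is a closed unbounded set guessing `X` and itself. -/
def Good (C X : Set κ.ord.ToType) : Prop :=
  IsClubIn C ∧ ∀ α ∈ C, X ∩ Set.Iio α ∈ S α ∧ C ∩ Set.Iio α ∈ S α

/-- The family of functions. -/
def Fam : Set (κ.ord.ToType → Prop × Set κ.ord.ToType × A) :=
  {F | ∃ C X, Good S C X ∧ F = Ffun a C X}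

/-- The code of `(C, X)` at `β`. -/
noncomputable def code (C X : Set κ.ord.ToType) (β : κ.ord.ToType) :
    Set κ.ord.ToType × Set κ.ord.ToType × A :=
  (C ∩ Set.Iic β, {ξ | ξ ∈ X ∧ ∃ γ ∈ C, ξ < γ ∧ γ ≤ β}, res (a (nx' C β)) β)

/-- The set of the possible codes. -/
def Codes (β : κ.ord.ToType) : Set (Set κ.ord.ToType × Set κ.ord.ToType × A) :=
  {p | ((p.1 = ∅ ∧ p.2.1 = ∅) ∨ ∃ γ ≤ β, ∃ R ∈ S γ, p.1 = insert γ R ∧ p.2.1 ∈ S γ) ∧
    p.2.2 ∈ Level A (ordOf β)}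

variable {a S}

theorem code_mem (ha : ∀ δ, a δ ∈ Level A (ordOf δ)) {C X : Set κ.ord.ToType} (h : Good S C X)
    (β : κ.ord.ToType) : code a C X β ∈ Codes S β := by
  refine ⟨?_, ?_⟩
  · rcases Set.eq_empty_or_nonempty (C ∩ Set.Iic β) with he | hne
    · refine Or.inl ⟨he, ?_⟩
      show {ξ | ξ ∈ X ∧ ∃ γ ∈ C, ξ < γ ∧ γ ≤ β} = ∅
      rw [Set.eq_empty_iff_forall_notMem]
      rintro ξ ⟨_, γ, hγ, _, hγβ⟩
      exact (Set.eq_empty_iff_forall_notMem.1 he) γ ⟨hγ, hγβ⟩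
    · right
      obtain ⟨γ, hγ⟩ := exists_least (upperBounds (C ∩ Set.Iic β)) ⟨β, fun x hx => hx.2⟩
      have hγC : γ ∈ C := h.1.2 _ Set.inter_subset_left hne γ hγ
      have hγβ : γ ≤ β := hγ.2 fun x hx => hx.2
      refine ⟨γ, hγβ, C ∩ Set.Iio γ, (h.2 γ hγC).2, ?_, ?_⟩
      · show C ∩ Set.Iic β = insert γ (C ∩ Set.Iio γ)
        ext ξ
        constructor
        · intro hξ
          rcases eq_or_lt_of_le (hγ.1 hξ) with h1 | h1
          · exact Or.inl h1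
          · exact Or.inr ⟨hξ.1, h1⟩
        · rintro (rfl | hξ)
          · exact ⟨hγC, hγβ⟩
          · exact ⟨hξ.1, (le_of_lt hξ.2).trans hγβ⟩
      · show {ξ | ξ ∈ X ∧ ∃ γ ∈ C, ξ < γ ∧ γ ≤ β} ∈ S γ
        have : {ξ | ξ ∈ X ∧ ∃ γ ∈ C, ξ < γ ∧ γ ≤ β} = X ∩ Set.Iio γ := by
          ext ξ
          constructor
          · rintro ⟨hξ, γ', hγ', h1, h2⟩
            exact ⟨hξ, lt_of_lt_of_le h1 (hγ.1 ⟨hγ', h2⟩)⟩
          · rintro ⟨hξ, h1⟩
            exact ⟨hξ, γ, hγC, h1, hγβ⟩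
        rw [this]
        exact (h.2 γ hγC).1
  · exact (res_spec (ha _) (nx'_spec h.1.1 β).1.2).2

theorem restr_eq_of_code (hT : IsTree A) (ha : ∀ δ, a δ ∈ Level A (ordOf δ))
    {C X C' X' : Set κ.ord.ToType} (h : Good S C X) (h' : Good S C' X') (β : κ.ord.ToType)
    (hc : code a C X β = code a C' X' β) : restr (Ffun a C X) β = restr (Ffun a C' X') β := by
  have hP : C ∩ Set.Iic β = C' ∩ Set.Iic β := congrArg Prod.fst hc
  have hQ : {ξ | ξ ∈ X ∧ ∃ γ ∈ C, ξ < γ ∧ γ ≤ β} = {ξ | ξ ∈ X' ∧ ∃ γ ∈ C', ξ < γ ∧ γ ≤ β} :=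
    congrArg (fun p => p.2.1) hc
  have hu : res (a (nx' C β)) β = res (a (nx' C' β)) β := congrArg (fun p => p.2.2) hc
  have hP' : ∀ γ ≤ β, (γ ∈ C ↔ γ ∈ C') := by
    intro γ hγ
    have := Set.ext_iff.1 hP γ
    simpa [hγ] using this
  rw [restr_eq_iff]
  intro γ hγ
  refine Prod.ext (propext (hP' γ hγ.le)) (Prod.ext ?_ ?_)
  · ext ξ
    show (ξ ∈ X ∧ γ ∈ C ∧ ξ < γ) ↔ (ξ ∈ X' ∧ γ ∈ C' ∧ ξ < γ)
    have hQξ := Set.ext_iff.1 hQ ξ
    constructor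
    · rintro ⟨h1, h2, h3⟩
      exact ⟨(hQξ.1 ⟨h1, γ, h2, h3, hγ.le⟩).1, (hP' γ hγ.le).1 h2, h3⟩
    · rintro ⟨h1, h2, h3⟩
      exact ⟨(hQξ.2 ⟨h1, γ, h2, h3, hγ.le⟩).1, (hP' γ hγ.le).2 h2, h3⟩
  · show res (a (nx C γ)) γ = res (a (nx C' γ)) γ
    have hn := nx_spec h.1.1 γ
    have hn' := nx_spec h'.1.1 γ
    by_cases hle : nx C γ ≤ β
    · have h1 : nx C γ = nx C' γ := by
        have h2 : nx C' γ ≤ nx C γ := hn'.2 ⟨(hP' _ hle).1 hn.1.1, hn.1.2⟩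
        exact le_antisymm (hn.2 ⟨(hP' _ (h2.trans hle)).2 hn'.1.1, hn'.1.2⟩) h2
      rw [h1]
    · have hle' : ¬ nx C' γ ≤ β := by
        intro hcon
        exact hle ((hn.2 ⟨(hP' _ hcon).2 hn'.1.1, hn'.1.2⟩).trans hcon)
      push Not at hle hle'
      have key : ∀ {D : Set κ.ord.ToType}, (∀ α, ∃ β ∈ D, α < β) → β < nx D γ →
          nx' D β = nx D γ := by
        intro D hD hlt
        have k1 := nx_spec hD γ
        have k2 := nx'_spec hD β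
        exact le_antisymm (k2.2 ⟨k1.1.1, hlt.le⟩) (k1.2 ⟨k2.1.1, lt_of_lt_of_le hγ k2.1.2⟩)
      have e1 := key h.1.1 hle
      have e2 := key h'.1.1 hle'
      rw [← e1, ← e2, ← res_res hT (ha _) hγ.le (by rw [e1]; exact hle.le),
        ← res_res hT (ha (nx' C' β)) hγ.le (by rw [e2]; exact hle'.le), hu]

theorem small_codes (hreg : κ.IsRegular) (hS : ∀ α, #(S α) < κ)
    (hA : ∀ β : κ.ord.ToType, #(Level A (ordOf β)) < κ) (β : κ.ord.ToType) :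
    #(Codes (A := A) S β) < κ := by
  have hκ := hreg.aleph0_le
  have := Cardinal.noMaxOrder hκ
  let Φ : Option (Σ γ : Set.Iic β, (S γ.1 × S γ.1)) × Level A (ordOf β) →
      Set κ.ord.ToType × Set κ.ord.ToType × A := fun p =>
    match p.1 with
    | none => (∅, ∅, p.2.1)
    | some q => (insert q.1.1 q.2.1.1, q.2.2.1, p.2.1)
  have hsub : Codes (A := A) S β ⊆ Set.range Φ := by
    rintro ⟨P, Q, t⟩ ⟨h1, h2⟩
    rcases h1 with ⟨h3, h4⟩ | ⟨γ, hγ, R, hR, h3, h4⟩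
    · refine ⟨(none, ⟨t, h2⟩), ?_⟩
      simp only at h3 h4
      rw [h3, h4]
    · refine ⟨(some ⟨⟨γ, hγ⟩, ⟨R, hR⟩, ⟨Q, h4⟩⟩, ⟨t, h2⟩), ?_⟩
      simp only at h3
      rw [h3]
  refine lt_of_le_of_lt (Cardinal.mk_le_mk_of_subset hsub) (lt_of_le_of_lt Cardinal.mk_range_le ?_)
  rw [Cardinal.mk_prod, Cardinal.lift_id, Cardinal.lift_id]
  refine Cardinal.mul_lt_of_lt hκ ?_ (hA β)
  rw [Cardinal.mk_option]
  refine Cardinal.add_lt_of_lt hκ ?_ (lt_of_lt_of_le Cardinal.one_lt_aleph0 hκ)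
  rw [Cardinal.mk_sigma]
  refine Cardinal.sum_lt_of_isRegular hreg ?_ ?_
  · obtain ⟨β', hβ'⟩ := exists_gt β
    refine lt_of_le_of_lt (Cardinal.mk_le_mk_of_subset
      (show Set.Iic β ⊆ Set.Iio β' from fun x hx => lt_of_le_of_lt hx hβ')) ?_
    exact Cardinal.mk_Iio_ord_toType β'
  · intro γ
    rw [Cardinal.mk_prod, Cardinal.lift_id]
    exact Cardinal.mul_lt_of_lt hκ (hS _) (hS _)

theorem small_restr (hreg : κ.IsRegular) (hS : ∀ α, #(S α) < κ) (hT : IsTree A)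
    (hA : ∀ β : κ.ord.ToType, #(Level A (ordOf β)) < κ)
    (ha : ∀ δ, a δ ∈ Level A (ordOf δ)) (β : κ.ord.ToType) :
    #{g | ∃ F ∈ Fam a S, g = restr F β} < κ := by
  refine lt_of_le_of_lt ?_ (small_codes hreg hS hA β)
  have key : ∀ g : {g | ∃ F ∈ Fam a S, g = restr F β}, ∃ C X, Good S C X ∧
      g.1 = restr (Ffun a C X) β := by
    rintro ⟨g, F, ⟨C, X, hCX, rfl⟩, rfl⟩
    exact ⟨C, X, hCX, rfl⟩
  choose C X hCX hg using key
  refine Cardinal.mk_le_of_injective (f := fun g =>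
    (⟨code a (C g) (X g) β, code_mem ha (hCX g) β⟩ : Codes (A := A) S β)) ?_
  intro g g' h
  apply Subtype.ext
  rw [hg g, hg g']
  exact restr_eq_of_code hT ha (hCX g) (hCX g') β (congrArg Subtype.val h)

/-- A function in the closure of the family says infinitely often that its argument is in the
closed unbounded set: otherwise it would give a branch of the Aronszajn tree. -/
theorem unbounded_of_closure (hκ : ℵ₀ ≤ κ) (hAr : IsAronszajn κ A)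
    (ha : ∀ δ, a δ ∈ Level A (ordOf δ))
    {G : κ.ord.ToType → Prop × Set κ.ord.ToType × A} (hG : G ∈ Closure (Fam a S))
    (α : κ.ord.ToType) : ∃ γ, α < γ ∧ (G γ).1 := by
  have := Cardinal.noMaxOrder hκ
  by_contra hcon
  push Not at hcon
  have hT := hAr.1.isTree
  have key : ∀ γ γ', α < γ → γ ≤ γ' → (G γ).2.2 ≤ (G γ').2.2 ∧
      (G γ).2.2 ∈ Level A (ordOf γ) ∧ (G γ').2.2 ∈ Level A (ordOf γ') := by
    intro γ γ' h1 h2
    obtain ⟨β, hβ⟩ := exists_gt γ'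
    obtain ⟨F, ⟨C, X, hCX, rfl⟩, hagree⟩ := hG β
    have hgap : ∀ δ ∈ C, α < δ → β ≤ δ := by
      intro δ hδ hαδ
      by_contra hlt
      push Not at hlt
      have h3 := hagree δ hlt
      exact hcon δ hαδ (by rw [← h3]; exact hδ)
    have hn := nx_spec hCX.1.1 γ
    have hn' := nx_spec hCX.1.1 γ'
    have hαγ' : α < γ' := lt_of_lt_of_le h1 h2
    have he : nx C γ = nx C γ' := by
      refine le_antisymm (hn.2 ⟨hn'.1.1, lt_of_le_of_lt h2 hn'.1.2⟩) (hn'.2 ⟨hn.1.1, ?_⟩)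
      exact lt_of_lt_of_le hβ (hgap _ hn.1.1 (h1.trans hn.1.2))
    have e1 : (G γ).2.2 = res (a (nx C γ)) γ := by
      rw [← hagree γ (lt_of_le_of_lt h2 hβ)]; rfl
    have e2 : (G γ').2.2 = res (a (nx C γ')) γ' := by
      rw [← hagree γ' hβ]; rfl
    have r1 := res_spec (ha (nx C γ)) (le_of_lt hn.1.2 : γ ≤ nx C γ)
    have r2 := res_spec (ha (nx C γ')) (le_of_lt hn'.1.2 : γ' ≤ nx C γ')
    rw [e1, e2]
    refine ⟨?_, r1.2, r2.2⟩
    rw [← he] at r2 ⊢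
    exact restr_mono hT r1.1 r2.1 r1.2 r2.2 (ordOf_le_iff.2 h2)
  have hb : {t : A | ∃ γ, α < γ ∧ t ≤ (G γ).2.2} ∈ Branches κ A := by
    refine ⟨?_, ?_, ?_⟩
    · rintro s ⟨γ, hγ, hs⟩ t ⟨γ', hγ', ht⟩ _
      rcases le_total γ γ' with h | h
      · exact le_total_below hT (hs.trans (key γ γ' hγ h).1) ht
      · exact le_total_below hT hs (ht.trans (key γ' γ hγ' h).1)
    · rintro t s hst ⟨γ, hγ, ht⟩
      exact ⟨γ, hγ, hst.trans ht⟩
    · intro ε hε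
      obtain ⟨β, rfl⟩ := exists_ordOf hε
      obtain ⟨γ, hγ⟩ := exists_gt (max α β)
      have hαγ : α < γ := lt_of_le_of_lt (le_max_left _ _) hγ
      have hβγ : β ≤ γ := (lt_of_le_of_lt (le_max_right _ _) hγ).le
      obtain ⟨s, hs, hlev⟩ := exists_restr (key γ γ hαγ le_rfl).2.1 (ordOf_le_iff.2 hβγ)
      exact ⟨s, ⟨γ, hαγ, hs⟩, hlev⟩
  rw [hAr.2] at hb
  exact hb

open Classical in
/-- The subset of `κ` coded by a function. -/
noncomputable def decode (G : κ.ord.ToType → Prop × Set κ.ord.ToType × A) : Cant κ :=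
  fun ξ => decide (∃ γ, (G γ).1 ∧ ξ ∈ (G γ).2.1)

theorem decode_coh (hκ : ℵ₀ ≤ κ) {G : κ.ord.ToType → Prop × Set κ.ord.ToType × A}
    (hG : G ∈ Closure (Fam a S)) {γ ξ : κ.ord.ToType} (hγ : (G γ).1) (hξ : ξ < γ) :
    (∃ γ, (G γ).1 ∧ ξ ∈ (G γ).2.1) ↔ ξ ∈ (G γ).2.1 := by
  have := Cardinal.noMaxOrder hκ
  constructor
  · rintro ⟨γ', hγ', hmem⟩
    obtain ⟨β, hβ⟩ := exists_gt (max γ γ')
    obtain ⟨F, ⟨C, X, hCX, rfl⟩, hagree⟩ := hG β
    rw [← hagree γ' (lt_of_le_of_lt (le_max_right _ _) hβ)] at hmem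
    rw [← hagree γ (lt_of_le_of_lt (le_max_left _ _) hβ)] at hγ ⊢
    exact ⟨hmem.1, hγ, hξ⟩
  · intro h
    exact ⟨γ, hγ, h⟩

end Construction

/-- If diamond-plus holds at the regular cardinal `κ` and there is a `κ`-Aronszajn tree, then
there is a strong `κ`-Kurepa tree. -/
theorem exists_strongKurepa {κ : Cardinal.{u}} (hreg : κ.IsRegular) (hD : DiamondPlus κ)
    (hA : ∃ (A : Type u) (_ : PartialOrder A), IsAronszajn κ A) :
    ∃ (T : Type u) (_ : PartialOrder T), IsStrongKurepa κ T := by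
  classical
  obtain ⟨A, instA, hAr⟩ := hA
  obtain ⟨S, hS, hguess⟩ := hD
  have hκ := hreg.aleph0_le
  have := Cardinal.noMaxOrder hκ
  have hlev : ∀ δ : κ.ord.ToType, ∃ t : A, t ∈ Level A (ordOf δ) := fun δ =>
    hAr.1.level_nonempty _ (ordOf_lt δ)
  choose a ha using hlev
  refine ⟨FNode (Fam a S), inferInstance, ?_⟩
  refine strongKurepa_of hκ ?_ ?_ decode ?_ ?_
  · obtain ⟨C, hC, hC2⟩ := hguess ∅
    exact ⟨Ffun a C ∅, C, ∅, ⟨hC, hC2⟩, rfl⟩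
  · exact small_restr hreg (fun α => (hS α).1) hAr.1.isTree
      (fun β => hAr.1.level_small _ (ordOf_lt β)) ha
  · intro G hG α
    obtain ⟨γ, hαγ, hγ⟩ := unbounded_of_closure hκ hAr ha hG α
    obtain ⟨β, hβ⟩ := exists_gt γ
    refine ⟨β, fun G' hG' hagree ξ hξ => ?_⟩
    have hγ' : (G' γ).1 := by rw [hagree γ hβ]; exact hγ
    have h1 := decode_coh hκ hG hγ (hξ.trans hαγ)
    have h2 := decode_coh hκ hG' hγ' (hξ.trans hαγ)
    rw [hagree γ hβ] at h2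
    show decide _ = decide _
    exact decide_eq_decide.2 (h2.trans h1.symm)
  · intro g
    obtain ⟨C, hC, hC2⟩ := hguess {ξ | g ξ = true}
    refine ⟨Ffun a C {ξ | g ξ = true}, ⟨C, _, ⟨hC, hC2⟩, rfl⟩, ?_⟩
    funext ξ
    show decide _ = _
    by_cases hg : g ξ = true
    · rw [hg, decide_eq_true_iff]
      obtain ⟨γ, hγ, hlt⟩ := hC.1 ξ
      exact ⟨γ, hγ, hg, hγ, hlt⟩
    · rw [Bool.not_eq_true] at hg
      rw [hg, decide_eq_false_iff_not]
      rintro ⟨γ, _, hmem⟩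
      have : g ξ = true := hmem.1
      rw [hg] at this
      exact Bool.false_ne_true this

end Q210.SK
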