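import Pool.Agent.Q210.SK.Defs

set_option autoImplicit false

open Cardinal Ordinal Set Order

universe u v

namespace Q210.SK

theorem iio_iso_unique {α β : Ordinal.{u}} (e : Set.Iio α ≃o Set.Iio β) : α = β := by
  have h1 : typeLT (Set.Iio α) = typeLT (Set.Iio β) := Ordinal.type_eq.2 ⟨e.toRelIsoLT⟩
  simpa using h1

section AbstractTree

variable {T : Type u} [PartialOrder T]

theorem level_unique {t : T} {α β : Ordinal.{u}} (h1 : t ∈ Level T α) (h2 : t ∈ Level T β) :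
    α = β := by
  obtain ⟨e1⟩ := h1
  obtain ⟨e2⟩ := h2
  exact iio_iso_unique (e1.symm.trans e2)

/-- The initial segment of an order isomorphism. -/
theorem level_of_lt {t : T} {α : Ordinal.{u}} (e : Set.Iio t ≃o Set.Iio α) (s : Set.Iio t) :
    s.1 ∈ Level T (e s).1 := by
  refine ⟨{ toFun := fun x => ⟨(e ⟨x.1, lt_trans x.2 s.2⟩).1, ?_⟩
            invFun := fun y => ⟨(e.symm ⟨y.1, lt_trans y.2 (show (e s).1 < α from (e s).2)⟩).1, ?_⟩
            left_inv := ?_
            right_inv := ?_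
            map_rel_iff' := ?_ }⟩
  · have h : e ⟨x.1, lt_trans x.2 s.2⟩ < e s := e.lt_iff_lt.2 x.2
    exact h
  · have h : e.symm ⟨y.1, lt_trans y.2 (show (e s).1 < α from (e s).2)⟩ < s := by
      rw [← e.lt_iff_lt, e.apply_symm_apply]
      exact y.2
    exact h
  · intro x
    apply Subtype.ext
    have h : (e.symm (e ⟨x.1, lt_trans x.2 s.2⟩)).1 = x.1 := by rw [e.symm_apply_apply]
    exact h
  · intro y
    apply Subtype.ext
    have h : (e (e.symm ⟨y.1, lt_trans y.2 (show (e s).1 < α from (e s).2)⟩)).1 = y.1 := by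
      rw [e.apply_symm_apply]
    exact h
  · intro x y
    show (e ⟨x.1, _⟩).1 ≤ (e ⟨y.1, _⟩).1 ↔ _
    rw [Subtype.coe_le_coe, e.le_iff_le]
    rfl

theorem exists_restr {t : T} {α γ : Ordinal.{u}} (ht : t ∈ Level T α) (h : γ ≤ α) :
    ∃ s ≤ t, s ∈ Level T γ := by
  rcases eq_or_lt_of_le h with rfl | h
  · exact ⟨t, le_rfl, ht⟩
  obtain ⟨e⟩ := ht
  refine ⟨(e.symm ⟨γ, h⟩).1, (show (e.symm ⟨γ, h⟩).1 < t from (e.symm ⟨γ, h⟩).2).le, ?_⟩
  have h1 := level_of_lt e (e.symm ⟨γ, h⟩)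
  rwa [e.apply_symm_apply] at h1

theorem le_total_below (hT : IsTree T) {t s s' : T} (h : s ≤ t) (h' : s' ≤ t) :
    s ≤ s' ∨ s' ≤ s := by
  rcases eq_or_lt_of_le h with rfl | h
  · exact Or.inr h'
  rcases eq_or_lt_of_le h' with rfl | h'
  · exact Or.inl h.le
  have := hT t
  rcases trichotomous_of (· < · : Set.Iio t → Set.Iio t → Prop) ⟨s, h⟩ ⟨s', h'⟩ with h1 | h1 | h1
  · exact Or.inl (le_of_lt h1)
  · exact Or.inl (le_of_eq (congrArg Subtype.val h1))
  · exact Or.inr (le_of_lt h1)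

theorem level_lt_of_lt {s t : T} {α γ : Ordinal.{u}} (ht : t ∈ Level T α) (hs : s ∈ Level T γ)
    (h : s < t) : γ < α := by
  obtain ⟨e⟩ := ht
  have h1 := level_of_lt e ⟨s, h⟩
  rw [level_unique hs h1]
  exact (e ⟨s, h⟩).2

theorem restr_unique (hT : IsTree T) {t s s' : T} {γ : Ordinal.{u}} (h : s ≤ t) (h' : s' ≤ t)
    (hs : s ∈ Level T γ) (hs' : s' ∈ Level T γ) : s = s' := by
  rcases le_total_below hT h h' with h1 | h1
  · rcases eq_or_lt_of_le h1 with h2 | h2
    · exact h2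
    · exact absurd (level_lt_of_lt hs' hs h2) (lt_irrefl _)
  · rcases eq_or_lt_of_le h1 with h2 | h2
    · exact h2.symm
    · exact absurd (level_lt_of_lt hs hs' h2) (lt_irrefl _)

theorem restr_mono (hT : IsTree T) {t s s' : T} {γ γ' : Ordinal.{u}} (h : s ≤ t) (h' : s' ≤ t)
    (hs : s ∈ Level T γ) (hs' : s' ∈ Level T γ') (hγ : γ ≤ γ') : s ≤ s' := by
  rcases le_total_below hT h h' with h1 | h1
  · exact h1
  rcases eq_or_lt_of_le h1 with h2 | h2
  · exact h2.ge
  · exact absurd (level_lt_of_lt hs hs' h2) (not_lt.2 hγ)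

end AbstractTree

section ToOrd

variable {o : Ordinal.{u}}

/-- The ordinal of an element of `o.ToType`. -/
noncomputable def ordOf (β : o.ToType) : Ordinal.{u} := (ToType.mk.symm β : Set.Iio o).1

theorem ordOf_lt (β : o.ToType) : ordOf β < o := (ToType.mk.symm β : Set.Iio o).2

theorem ordOf_le_iff {β γ : o.ToType} : ordOf β ≤ ordOf γ ↔ β ≤ γ := by
  unfold ordOf
  rw [Subtype.coe_le_coe, OrderIso.le_iff_le]

theorem ordOf_lt_iff {β γ : o.ToType} : ordOf β < ordOf γ ↔ β < γ := by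
  rw [lt_iff_lt_of_le_iff_le ordOf_le_iff]

theorem exists_ordOf {α : Ordinal.{u}} (h : α < o) : ∃ β : o.ToType, ordOf β = α :=
  ⟨ToType.mk ⟨α, h⟩, by simp [ordOf]⟩

theorem ordOf_inj {β γ : o.ToType} (h : ordOf β = ordOf γ) : β = γ :=
  le_antisymm (ordOf_le_iff.1 h.le) (ordOf_le_iff.1 h.ge)

/-- The elements below `β` in `o.ToType` are the ordinals below `ordOf β`. -/
noncomputable def iioIso (β : o.ToType) : Set.Iio β ≃o Set.Iio (ordOf β) where
  toFun x := ⟨ordOf x.1, ordOf_lt_iff.2 x.2⟩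
  invFun y := ⟨ToType.mk ⟨y.1, lt_trans y.2 (ordOf_lt β)⟩, by
    have h : ordOf (ToType.mk ⟨y.1, lt_trans y.2 (ordOf_lt β)⟩ : o.ToType) = y.1 := by
      simp [ordOf]
    exact ordOf_lt_iff.1 (by rw [h]; exact y.2)⟩
  left_inv x := by
    apply Subtype.ext
    apply ordOf_inj
    simp [ordOf]
  right_inv y := by
    apply Subtype.ext
    simp [ordOf]
  map_rel_iff' := by
    intro x y
    exact ordOf_le_iff

end ToOrd

section FamilyTree

variable {κ : Cardinal.{u}} {V : Type u}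

/-- The restriction of a function to the ordinals below `β`. -/
noncomputable def restr (F : κ.ord.ToType → V) (β : κ.ord.ToType) : κ.ord.ToType → Option V := by
  classical exact fun γ => if γ < β then some (F γ) else none

theorem restr_apply (F : κ.ord.ToType → V) {β γ : κ.ord.ToType} (h : γ < β) :
    restr F β γ = some (F γ) := by
  simp [restr, h]

theorem restr_eq_iff (F G : κ.ord.ToType → V) (β : κ.ord.ToType) :
    restr F β = restr G β ↔ ∀ γ < β, F γ = G γ := by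
  constructor
  · intro h γ hγ
    have := congrFun h γ
    rw [restr_apply F hγ, restr_apply G hγ] at this
    exact Option.some.inj this
  · intro h
    funext γ
    unfold restr
    by_cases hγ : γ < β
    · simp [hγ, h γ hγ]
    · simp [hγ]

/-- The tree of the proper initial segments of the functions in the family `𝓕`. -/
def FNode (𝓕 : Set (κ.ord.ToType → V)) : Type u :=
  {p : κ.ord.ToType × (κ.ord.ToType → Option V) // ∃ F ∈ 𝓕, p.2 = restr F p.1}

namespace FNode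

variable {𝓕 : Set (κ.ord.ToType → V)}

/-- The initial segment `F ↾ β`. -/
noncomputable def mk' (F : κ.ord.ToType → V) (hF : F ∈ 𝓕) (β : κ.ord.ToType) : FNode 𝓕 :=
  ⟨(β, restr F β), F, hF, rfl⟩

theorem exists_mk' (x : FNode 𝓕) : ∃ F, ∃ hF : F ∈ 𝓕, x = mk' F hF x.1.1 := by
  obtain ⟨F, hF, h⟩ := x.2
  exact ⟨F, hF, Subtype.ext (Prod.ext rfl h)⟩

instance : PartialOrder (FNode 𝓕) where
  le x y := x.1.1 ≤ y.1.1 ∧ ∀ γ < x.1.1, x.1.2 γ = y.1.2 γ
  le_refl x := ⟨le_rfl, fun _ _ => rfl⟩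
  le_trans x y z h1 h2 := ⟨h1.1.trans h2.1, fun γ hγ => (h1.2 γ hγ).trans
    (h2.2 γ (lt_of_lt_of_le hγ h1.1))⟩
  le_antisymm x y h1 h2 := by
    have he : x.1.1 = y.1.1 := le_antisymm h1.1 h2.1
    apply Subtype.ext
    apply Prod.ext he
    obtain ⟨F, hF, hx⟩ := x.2
    obtain ⟨G, hG, hy⟩ := y.2
    rw [hx, hy, he, restr_eq_iff]
    intro γ hγ
    have h3 := h1.2 γ (by rw [he]; exact hγ)
    rw [hx, hy, restr_apply F (by rw [he]; exact hγ), restr_apply G hγ] at h3
    exact Option.some.inj h3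

theorem le_def (x y : FNode 𝓕) : x ≤ y ↔ x.1.1 ≤ y.1.1 ∧ ∀ γ < x.1.1, x.1.2 γ = y.1.2 γ :=
  Iff.rfl

theorem lt_iff (x y : FNode 𝓕) : x < y ↔ x.1.1 < y.1.1 ∧ x ≤ y := by
  constructor
  · intro h
    refine ⟨lt_of_le_of_ne h.le.1 fun he => ?_, h.le⟩
    exact absurd (show y ≤ x from ⟨he.ge, fun γ hγ => (h.le.2 γ (by rw [he]; exact hγ)).symm⟩)
      (not_le_of_gt h)
  · rintro ⟨h1, h2⟩
    refine lt_of_le_of_ne h2 fun he => ?_
    rw [he] at h1
    exact lt_irrefl _ h1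

theorem mk'_le_iff {F G : κ.ord.ToType → V} (hF : F ∈ 𝓕) (hG : G ∈ 𝓕) {β β' : κ.ord.ToType}
    (h : β ≤ β') : mk' F hF β ≤ mk' G hG β' ↔ ∀ γ < β, F γ = G γ := by
  rw [le_def]
  constructor
  · rintro ⟨_, h2⟩ γ hγ
    have h3 := h2 γ hγ
    change restr F β γ = restr G β' γ at h3
    rw [restr_apply F hγ, restr_apply G (lt_of_lt_of_le hγ h)] at h3
    exact Option.some.inj h3
  · intro h2
    refine ⟨h, fun γ hγ => ?_⟩
    change restr F β γ = restr G β' γ
    have hγ' : γ < β := hγ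
    rw [restr_apply F hγ', restr_apply G (lt_of_lt_of_le hγ' h), h2 γ hγ']

theorem eq_mk' {x : FNode 𝓕} {F : κ.ord.ToType → V} (hF : F ∈ 𝓕) {β : κ.ord.ToType}
    (h : x ≤ mk' F hF β) : x = mk' F hF x.1.1 := by
  obtain ⟨G, hG, hx⟩ := exists_mk' x
  have hle : x.1.1 ≤ β := h.1
  have h' : mk' G hG x.1.1 ≤ mk' F hF β := by rw [← hx]; exact h
  rw [mk'_le_iff hG hF hle] at h'
  conv_lhs => rw [hx]
  apply Subtype.ext
  show (x.1.1, restr G x.1.1) = (x.1.1, restr F x.1.1)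
  rw [(restr_eq_iff _ _ _).2 h']

/-- The predecessors of a node at level `β` correspond to the ordinals below `β`. -/
noncomputable def predIso (x : FNode 𝓕) : Set.Iio x ≃o Set.Iio x.1.1 where
  toFun y := ⟨y.1.1.1, ((lt_iff _ _).1 y.2).1⟩
  invFun β := ⟨mk' (exists_mk' x).choose (exists_mk' x).choose_spec.choose β.1, by
    obtain ⟨hF, hx⟩ := (exists_mk' x).choose_spec
    have hle : mk' (exists_mk' x).choose hF β.1 ≤ x := by
      conv_rhs => rw [hx]
      exact (mk'_le_iff hF hF (show β.1 < x.1.1 from β.2).le).2 fun _ _ => rfl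
    exact (lt_iff _ _).2 ⟨β.2, hle⟩⟩
  left_inv y := by
    obtain ⟨hF, hx⟩ := (exists_mk' x).choose_spec
    apply Subtype.ext
    have hy : y.1 ≤ mk' (exists_mk' x).choose hF x.1.1 := by
      rw [← hx]; exact (show y.1 < x from y.2).le
    exact (eq_mk' hF hy).symm
  right_inv β := rfl
  map_rel_iff' := by
    intro y z
    obtain ⟨hF, hx⟩ := (exists_mk' x).choose_spec
    show y.1.1.1 ≤ z.1.1.1 ↔ y.1 ≤ z.1
    constructor
    · intro h
      have hy : y.1 ≤ mk' (exists_mk' x).choose hF x.1.1 := by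
        rw [← hx]; exact (show y.1 < x from y.2).le
      have hz : z.1 ≤ mk' (exists_mk' x).choose hF x.1.1 := by
        rw [← hx]; exact (show z.1 < x from z.2).le
      rw [eq_mk' hF hy, eq_mk' hF hz]
      exact (mk'_le_iff hF hF h).2 fun _ _ => rfl
    · intro h
      exact h.1

theorem mem_level (x : FNode 𝓕) : x ∈ Level (FNode 𝓕) (ordOf x.1.1) :=
  ⟨(predIso x).trans (iioIso x.1.1)⟩

theorem isTree : IsTree (FNode 𝓕) := by
  intro x
  exact ((predIso x).toRelIsoLT.toRelEmbedding).isWellOrder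

end FNode

end FamilyTree

end Q210.SK
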